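import Pool.Agent.X8.BC2

/-! A 2-connected graph whose bnr-independence number exceeds its upper broadcast number. -/

namespace Pool.Agent.Results.MP_20154b_co.TwoConnectedExample

open Pool.Agent.X8.BC

/-- There is a 2-connected graph `G` (on 12 vertices) with `Γ_b(G) < α_bnr(G)`. -/
theorem result : ∃ G : SimpleGraph (Fin 12), TwoConnected G ∧ upperB G < alphaBnr G :=
  ⟨G12, two12, lt_of_le_of_lt upper12 (lt_of_lt_of_le (by norm_num) alpha12)⟩

end Pool.Agent.Results.MP_20154b_co.TwoConnectedExample
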